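import Pool.Agent.Helper62.NT.Goals

/-!
PROJECT NT (MP_8ff381_an), packet SEP: separated sequences.
-/

set_option autoImplicit false

noncomputable section

namespace Pool.Agent.Helper12.NT.SEP

open Filter Topology
open Pool.Agent.Helper62.NT

theorem qs_congr (F a : ℕ → ℝ) (c : ℝ) (n : ℕ) (p r : ℕ → ℕ) (h : ∀ i ≤ n, F (r i) = c + a (p i)) :
    qs F n r = qs a n p := by
  unfold qs
  refine Finset.sum_congr rfl fun i hi => ?_
  have hi' := Finset.mem_range.mp hi
  rw [h i hi'.le, h (i + 1) hi']
  ring

theorem qs_cat (F a e : ℕ → ℝ) (c : ℝ) (n m : ℕ) (p q r : ℕ → ℕ) (h1 : ∀ i ≤ n, F (r i) = a (p i))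
    (h2 : ∀ j ≤ m, F (r (n + 1 + j)) = c + e (q j)) :
    qs F (n + 1 + m) r = qs a n p + (c + e (q 0) - a (p n)) ^ 2 + qs e m q := by
  have e1 : qs F n r = qs a n p := qs_congr F a 0 n p r fun i hi => by rw [h1 i hi, zero_add]
  have e2 : qs F m (fun j => r (n + 1 + j)) = qs e m q := qs_congr F e c m q _ h2
  have e3 : qs F (n + 1 + m) r = qs F n r + (F (r (n + 1)) - F (r n)) ^ 2 +
      qs F m (fun j => r (n + 1 + j)) := by
    unfold qs
    rw [Finset.sum_range_add, Finset.sum_range_succ]
    rfl
  have e4 : F (r (n + 1)) = c + e (q 0) := h2 0 (Nat.zero_le _)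
  rw [e3, e1, e2, h1 n le_rfl, e4]

theorem t (hV : S_VBAS) (hQ : S_QVBAS) : S_SEP := by
  intro A E K hA hE hEB
  obtain ⟨v0, v1, v2, v3, -, -, -, v7, -, v9⟩ := hV
  obtain ⟨w0, w1, w2, -, -, -, -⟩ := hQ
  have hAB : BV A := by
    obtain ⟨C, hC⟩ := v9 (fun t => A t - A K) K (fun t ht => by rw [hA t ht, sub_self])
    refine ⟨C, fun n p hp => ?_⟩
    have h1 := hC n p hp
    have h2 : qs A n p = qs (fun t => A t - A K) n p :=
      qs_congr A (fun t => A t - A K) (A K) n p p fun i _ => by ring
    rw [h2]
    exact h1
  have hFB : BV (fun t => A t + E t) := (v3 A E hAB hEB).1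
  have fle : ∀ t, t ≤ K → A t + E t = A t := fun t ht => by rw [hE t ht, add_zero]
  have fge : ∀ t, K ≤ t → A t + E t = A K + E t := fun t ht => by rw [hA t ht]
  refine ⟨?_, fun hE0 => ?_⟩
  · -- lower estimate
    have key : ∀ (n : ℕ) (p : ℕ → ℕ), Monotone p → ∀ (m : ℕ) (q : ℕ → ℕ), Monotone q →
        qs A n p + qs E m q ≤ V (fun t => A t + E t) ^ 2 := by
      intro n p hp m q hq
      set r : ℕ → ℕ := fun i => if i ≤ n then min (p i) K else max (q (i - (n + 1))) K with hr
      have hrm : Monotone r := by
        intro i j hij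
        simp only [hr]
        by_cases hj : j ≤ n
        · rw [if_pos hj, if_pos (hij.trans hj)]
          exact min_le_min_right _ (hp hij)
        · rw [if_neg hj]
          by_cases hi : i ≤ n
          · rw [if_pos hi]
            exact (min_le_right _ _).trans (le_max_right _ _)
          · rw [if_neg hi]
            exact max_le_max_right _ (hq (Nat.sub_le_sub_right hij _))
      have h1 : ∀ i ≤ n, (fun t => A t + E t) (r i) = A (p i) := by
        intro i hi
        have e1 : r i = min (p i) K := if_pos hi
        show A (r i) + E (r i) = A (p i)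
        rw [e1, fle _ (min_le_right _ _)]
        rcases le_total (p i) K with h | h
        · rw [min_eq_left h]
        · rw [min_eq_right h, hA _ h]
      have h2 : ∀ j ≤ m, (fun t => A t + E t) (r (n + 1 + j)) = A K + E (q j) := by
        intro j _
        have e1 : r (n + 1 + j) = max (q j) K := by
          have e2 : n + 1 + j - (n + 1) = j := by omega
          simp only [hr]
          rw [if_neg (by omega), e2]
        show A (r (n + 1 + j)) + E (r (n + 1 + j)) = A K + E (q j)
        rw [e1, fge _ (le_max_right _ _)]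
        rcases le_total (q j) K with h | h
        · rw [max_eq_right h, hE _ h, hE _ le_rfl]
        · rw [max_eq_left h]
      have h3 := qs_cat (fun t => A t + E t) A E (A K) n m p q r h1 h2
      have h4 := v1 _ hFB (n + 1 + m) r hrm
      rw [h3] at h4
      nlinarith [sq_nonneg (A K + E (q 0) - A (p n))]
    have q0 : ∀ (a : ℕ → ℝ) (p : ℕ → ℕ), qs a 0 p = 0 := fun a p => by simp [qs]
    have hA2 : ∀ (m : ℕ) (q : ℕ → ℕ), Monotone q →
        V A ^ 2 ≤ V (fun t => A t + E t) ^ 2 - qs E m q := by
      intro m q hq
      have h0 : 0 ≤ V (fun t => A t + E t) ^ 2 - qs E m q := by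
        have := key 0 id monotone_id m q hq
        rw [q0] at this
        linarith
      have h1 : V A ≤ √(V (fun t => A t + E t) ^ 2 - qs E m q) := by
        refine v2 A _ (Real.sqrt_nonneg _) fun n p hp => ?_
        rw [Real.sq_sqrt h0]
        have := key n p hp m q hq
        linarith
      calc V A ^ 2 ≤ √(V (fun t => A t + E t) ^ 2 - qs E m q) ^ 2 :=
            pow_le_pow_left₀ (v0 A) h1 2
        _ = _ := Real.sq_sqrt h0
    have h0 : 0 ≤ V (fun t => A t + E t) ^ 2 - V A ^ 2 := by
      have := hA2 0 id monotone_id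
      rw [q0] at this
      linarith
    have h1 : V E ≤ √(V (fun t => A t + E t) ^ 2 - V A ^ 2) := by
      refine v2 E _ (Real.sqrt_nonneg _) fun m q hq => ?_
      rw [Real.sq_sqrt h0]
      have := hA2 m q hq
      linarith
    have h2 : V E ^ 2 ≤ V (fun t => A t + E t) ^ 2 - V A ^ 2 :=
      calc V E ^ 2 ≤ √(V (fun t => A t + E t) ^ 2 - V A ^ 2) ^ 2 :=
            pow_le_pow_left₀ (v0 E) h1 2
        _ = _ := Real.sq_sqrt h0
    linarith
  · -- upper estimate
    have hC0 : 0 ≤ Qv A (A K) ^ 2 + 2 * V E ^ 2 := by positivity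
    have key : ∀ (n : ℕ) (p : ℕ → ℕ), Monotone p →
        qs (fun t => A t + E t) n p + 2 * ((fun t => A t + E t) (p n) - A K) ^ 2 ≤
          Qv A (A K) ^ 2 + 2 * V E ^ 2 := by
      intro n p hp
      show qs (fun t => A t + E t) n p + 2 * (A (p n) + E (p n) - A K) ^ 2 ≤
          Qv A (A K) ^ 2 + 2 * V E ^ 2
      rcases le_or_gt (p n) K with hn | hn
      · -- all points are at most `K`
        have h1 : qs (fun t => A t + E t) n p = qs A n p :=
          qs_congr _ A 0 n p p fun i hi => by
            show A (p i) + E (p i) = 0 + A (p i)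
            rw [fle _ ((hp hi).trans hn), zero_add]
        rw [h1, fle _ hn]
        have := w1 A (A K) hAB n p hp
        nlinarith [sq_nonneg (V E)]
      · have hex : ∃ i, K < p i := ⟨n, hn⟩
        classical
        obtain ⟨i0, hi0, hmin⟩ : ∃ i0, K < p i0 ∧ ∀ i < i0, p i ≤ K :=
          ⟨Nat.find hex, Nat.find_spec hex, fun i hi => not_lt.mp (Nat.find_min hex hi)⟩
        have hi0n : i0 ≤ n := by
          by_contra hcon
          exact absurd hn (not_lt.mpr (hmin n (by omega)))
        rcases Nat.eq_zero_or_pos i0 with h0 | h0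
        · -- all points are beyond `K`
          subst h0
          have hge : ∀ i, K ≤ p i := fun i => hi0.le.trans (hp (Nat.zero_le i))
          have h1 : qs (fun t => A t + E t) n p = qs E n p :=
            qs_congr _ E (A K) n p p fun i _ => fge _ (hge i)
          have h2 := v7 E 0 hEB hE0 n p hp
          rw [h1, fge _ (hge n)]
          have h3 : 0 ≤ qs E n p := Finset.sum_nonneg fun i _ => sq_nonneg _
          have h4 : A K + E (p n) - A K = E (p n) - 0 := by ring
          rw [h4]
          nlinarith [sq_nonneg (Qv A (A K))]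
        · obtain ⟨j, rfl⟩ : ∃ j, i0 = j + 1 := ⟨i0 - 1, by omega⟩
          obtain ⟨m, rfl⟩ : ∃ m, n = j + 1 + m := ⟨n - (j + 1), by omega⟩
          have hle : ∀ i ≤ j, p i ≤ K := fun i hi => hmin i (by omega)
          have hge : ∀ i, K ≤ p (j + 1 + i) := fun i => hi0.le.trans (hp (by omega))
          have h1 := qs_cat (fun t => A t + E t) A E (A K) j m p (fun i => p (j + 1 + i)) p
            (fun i hi => fle _ (hle i hi)) (fun i _ => fge _ (hge i))
          rw [h1, fge _ (hge m)]
          -- the chain `K, p (j+1), ...`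
          set q : ℕ → ℕ := fun i => if i = 0 then K else p (j + i) with hq
          have hqm : Monotone q := by
            intro a b hab
            simp only [hq]
            by_cases ha : a = 0
            · rw [if_pos ha]
              by_cases hb : b = 0
              · rw [if_pos hb]
              · rw [if_neg hb]
                have := hge (b - 1)
                rwa [show j + 1 + (b - 1) = j + b by omega] at this
            · rw [if_neg ha, if_neg (by omega)]
              exact hp (by omega)
          have h2 := v7 E 0 hEB hE0 (m + 1) q hqm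
          have h3 : qs E (m + 1) q = (E (p (j + 1)) - 0) ^ 2 + qs E m (fun i => p (j + 1 + i)) := by
            unfold qs
            rw [Finset.sum_range_succ', add_comm]
            congr 1
            · have e1 : q (0 + 1) = p (j + 1) := if_neg (by omega)
              have e2 : q 0 = K := if_pos rfl
              rw [e1, e2, hE K le_rfl]
            · refine Finset.sum_congr rfl fun i _ => ?_
              simp only [hq]
              rw [if_neg (by omega), if_neg (by omega)]
              rw [show j + (i + 1 + 1) = j + 1 + (i + 1) by omega,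
                show j + (i + 1) = j + 1 + i by omega]
          have h4 : q (m + 1) = p (j + 1 + m) := by
            simp only [hq]
            rw [if_neg (by omega), show j + (m + 1) = j + 1 + m by omega]
          rw [h3, h4] at h2
          have h5 := w1 A (A K) hAB j p hp
          have h6 : 0 ≤ qs E m (fun i => p (j + 1 + i)) := Finset.sum_nonneg fun i _ => sq_nonneg _
          have h7 : (A K + E (p (j + 1 + 0)) - A (p j)) ^ 2 ≤
              2 * (A (p j) - A K) ^ 2 + 2 * E (p (j + 1)) ^ 2 := by
            rw [add_zero]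
            nlinarith [sq_nonneg (E (p (j + 1)) + (A (p j) - A K))]
          have h8 : A K + E (p (j + 1 + m)) - A K = E (p (j + 1 + m)) := by ring
          rw [h8]
          nlinarith
    have h1 : Qv (fun t => A t + E t) (A K) ≤ √(Qv A (A K) ^ 2 + 2 * V E ^ 2) := by
      refine w2 _ _ _ (Real.sqrt_nonneg _) fun n p hp => ?_
      rw [Real.sq_sqrt hC0]
      exact key n p hp
    calc Qv (fun t => A t + E t) (A K) ^ 2 ≤ √(Qv A (A K) ^ 2 + 2 * V E ^ 2) ^ 2 :=
          pow_le_pow_left₀ (w0 _ _) h1 2
      _ = _ := Real.sq_sqrt hC0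

end Pool.Agent.Helper12.NT.SEP
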